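import Mathlib
import Pool.Agent.H2.RF6

set_option autoImplicit false

namespace Pool.Agent.Results.MP_329fc6_gt.Both

open Filter Topology Set

/-- precompact: finitely many translates of every neighbourhood of the identity cover the group -/
def Precompact (G : Type) [CommGroup G] [TopologicalSpace G] : Prop :=
  ∀ U ∈ nhds (1 : G), ∃ F : Finset G, ∀ x : G, ∃ g ∈ F, g⁻¹ * x ∈ U

/-- Pontryagin reflexive: the evaluation map is a topological isomorphism onto the bidual -/
def Reflexive (G : Type) [CommGroup G] [TopologicalSpace G] : Prop :=
  ∃ e : G ≃ₜ* PontryaginDual (PontryaginDual G), ∀ (g : G) (χ : PontryaginDual G), e g χ = χ g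

/-- `H` is a quotient of `G`: there is a continuous open surjective homomorphism -/
def IsQuot (G H : Type) [CommGroup G] [TopologicalSpace G] [CommGroup H] [TopologicalSpace H] :
    Prop :=
  ∃ f : G →* H, Continuous f ∧ IsOpenMap f ∧ Function.Surjective f

/-- Every precompact abelian Baire group is a quotient of a reflexive precompact abelian Baire
group, and some precompact abelian group is not a quotient of a reflexive precompact group. -/
theorem result :
    (∀ (H : Type) [CommGroup H] [TopologicalSpace H] [IsTopologicalGroup H] [T2Space H],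
      Precompact H → BaireSpace H → ∃ (G : Type) (_ : CommGroup G) (_ : TopologicalSpace G),
        IsTopologicalGroup G ∧ T2Space G ∧ Precompact G ∧ BaireSpace G ∧ Reflexive G ∧
        IsQuot G H) ∧
    ∃ (H : Type) (_ : CommGroup H) (_ : TopologicalSpace H),
      IsTopologicalGroup H ∧ T2Space H ∧ Precompact H ∧
      ∀ (G : Type) [CommGroup G] [TopologicalSpace G] [IsTopologicalGroup G] [T2Space G],
        Precompact G → Reflexive G → ¬ IsQuot G H :=
  ⟨fun H _ _ _ _ hp _ => H2.RF.quot_baire H hp,
    H2.RF.ZB, inferInstance, inferInstance, inferInstance, inferInstance, H2.RF.ZB_pc,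
    fun G _ _ _ _ hp ⟨e, he⟩ ⟨f, h1, _, h2⟩ => H2.RF.no_image G hp e he f h1 h2⟩

end Pool.Agent.Results.MP_329fc6_gt.Both
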